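import Pool.Agent.Helper6.RW7.Final

/-!
MP_26d9ad_nt: the Lang-Vojta conjecture for 100% of the complements of fixed and random
hypersurfaces in closed subschemes `W` of the product of a projective space and a torus.

Let `W` be a closed subscheme of `P^N × G_m^a` over a finitely generated domain `A`,
`G 0, …, G (l-1)` equations of fixed hypersurfaces and `m` the number of random hypersurfaces.  If
the level sets of the `G i` on the cones over the fibres of `W` over `G_m^a` have dimension at most
`m`, then the complement in `W` of the fixed and of 100% of the tuples of random hypersurfaces of
sufficiently large degrees has no integral point over `B`, for every arithmetic scheme `B` whose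
function field contains `A`.  The bound for the degrees does not depend on `B`, all degrees are
allowed if the level sets have dimension at most `m - 1`, and the proportion of
the exceptional tuples in every box of side `2 H + 1` is at most `H ^ (-δ)`, `δ > 0`, for `H` large.
Some of the random hypersurfaces may be intersected with `W` instead of being removed from it.

Examples.  (1) `W = X` a closed subvariety of `P^N` of dimension `n` (`a = 0`), `l ≤ n` fixed
hypersurface sections of `X` in general position and `m = n + 1 - l` random ones; so one random
component is enough if there are `n` fixed ones.  For a geometrically irreducible surface `X`, `l = 2`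
and `m = 1`, it is enough that `G 0 ^ g 1 ≠ c * G 1 ^ g 0` on `X` for all constants `c`: any two
different irreducible curves in the plane will do.  For one more random hypersurface section,
`m = n + 2 - l`, all degrees are allowed, so hyperplane sections will do.
(2) `l = 0`: the complements of `m` random divisors in families `W` of projective varieties of
dimension at most `m - 1` over a subvariety of a torus, and random complete intersections of
codimension `m` in families of varieties of dimension at most `m`.  So, for `m = 1`: finite covers
of subvarieties of tori minus a random divisor, and finite covers of subvarieties of tori that are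
random multisections of a family of curves.
(3) `W = P^N`, `l = 0` and `m > N`: the complements of `m - e` random divisors in random complete
intersections of `e < N` hypersurfaces in `P^N`, exactly in the log general type range: the sum of
the degrees of all `m` hypersurfaces is at least `N + 2`.
(4) `W = P^N` and `h ≥ 1` fixed hyperplanes in general position, `h + m > N`: the same exact range,
`h` plus the sum of the degrees of the `m` random hypersurfaces is at least `N + 2`, for the
complements of the fixed and the random hypersurfaces (or of those not in `E` in the intersection of
those in `E`).  So, for `N = 2`: the complements of two fixed lines and a random conic, and of a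
fixed line, a random line and a random conic.

Proof.  A point over `B` gives, for a suitable affine open subset `V` of `B` and a homomorphism from
`O(V)` to a principal ring `S` of `S`-integers, homogeneous coordinates `x` in `S` and units `t` in
`S` with `f (x, t) = 0` on `I` such that all `G i (x, t)` and all `F i (x, t)`, `i` not in `E`, are
units (`Loc`, `Coord`, `Proj`, `Over`).  The classes of these units modulo `M`-th powers take only
`M^(kg)` values, and they determine the units modulo every prime `r` with `r - 1 ∣ M` that has a
homomorphism `S → F_r`.  There are at least `x^(1 - ε/4)` such primes `r ≤ x` for a suitable `M` with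
`log M ≤ x^(1 - ε/2)`: by the theorem of Bombieri and Vinogradov (`Pool/Agent/Helper18/BV`) and
Turán's method `r - 1` has a prime factor between `x^ε` and `x^(1/80)` for most primes `r`, and by
Mertens' theorem for prime ideals a positive proportion of all primes has a homomorphism `S → F_r`
(`Pool/Agent/Helper6/RW5`, `Pool/Agent/Helper6/RW6`).
For given nonzero values modulo `r` the set of the possible `x` modulo `r` has at most `C * r ^ m`
elements (`Fib`), uniformly in the values and in `r`, and the values of forms of large degree at its
elements are sufficiently independent: at least a fixed positive proportion of the tuples of forms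
over `F_r` does not take the given values there (`Count`, `One`, `Pool/Agent/Helper6/RW`; `Exact` and
`Pool/Agent/Helper6/RW7`: third moments).  A high moment of the number of these `r` concludes (`Pool/Agent/Helper14/PS/Es`,
`Pool/Agent/Helper6/RW6/Box`, `Pool/Agent/Helper6/RW6/Sieve`).
-/

open AlgebraicGeometry CategoryTheory MvPolynomial Pool.Agent.Helper6.RW3

namespace Pool.Agent.Results.MP_26d9ad_nt.RandomHypersurfaces

theorem result (A : Type) [CommRing A] [IsDomain A] [Algebra.FiniteType ℤ A] (N a l m : ℕ)
    (hm : 1 ≤ m) (E : Finset (Fin m)) (I : Set (MvPolynomial (Vars N a) A))
    (hI : ∀ f ∈ I, ∃ k, IsFormX f k) (G : Fin l → MvPolynomial (Vars N a) A) (g : Fin l → ℕ)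
    (hg : ∀ i, 1 ≤ g i) (hG : ∀ i, IsFormX (G i) (g i))
    (hdim : LevelDimLE I G (if l = 0 ∧ E = Finset.univ then m + 1 else m)) :
    ∃ D₀ : ℕ, (LevelDimLE I G (m - 1) → D₀ = 1) ∧
      ∀ (B : Scheme.{0}) [IsIntegral B] (s : B ⟶ Spec (.of ℤ)) [LocallyOfFiniteType s] [Flat s]
      (j : A →+* B.functionField), Function.Injective j →
      ∀ G' : Fin l → MvPolynomial (Vars N a) Γ(B, ⊤),
      (∀ i, (G' i).map (toField B) = (G i).map j) →
      ∀ d : Fin m → ℕ, (∀ i, D₀ ≤ d i) ∨
        (∃ (h : ℕ) (L : Fin h → Fin (N + 1) → A) (e : Fin h → Fin l), LinearIndependent A L ∧
          (∀ i, G (e i) = ∑ k, C (L i k) * X (Sum.inl k)) ∧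
          (h = 0 → E.card < N) ∧ N < h + m ∧ (∀ i, 1 ≤ d i) ∧ N + 2 ≤ h + ∑ i, d i) →
      ∃ δ : ℝ, 0 < δ ∧ ∃ H₀ : ℕ, ∀ H : ℕ, H₀ ≤ H →
        ∀ Φ : Fin m → MvPolynomial (Vars N a) Γ(B, ⊤), (∀ i, IsFormX (Φ i) (d i)) →
        (({F ∈ FormBox N d H | HasIntegralPoint B (MvPolynomial.map j '' I) G' E
          (fun i => Φ i + formOver a Γ(B, ⊤) (F i))}.ncard : ℕ) : ℝ) ≤
          (H : ℝ) ^ (-δ) * (FormBox N d H).ncard :=
  Pool.Agent.Helper6.RW7.main A N a l m hm E I hI G g hg hG hdim

end Pool.Agent.Results.MP_26d9ad_nt.RandomHypersurfaces
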