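import Pool.Agent.Helper6.MT.T54
import Pool.Agent.Helper6.MT.T29

/-!
# Integral points near the corners of hypersurface sections

All definitions used in the theorem are in this file. `K` is a number field, `J` a set of forms
cutting out a closed subscheme `X` of projective `N`-space, and `F 0, ..., F n` are forms of
degrees `d i ≥ 1`; `D` is the union of the hypersurfaces `F i = 0`.
-/

set_option autoImplicit false

namespace Pool.Agent.Results.MP_26d9ad_nt.ThreeComponents

open NumberField MvPolynomial
open scoped LinearAlgebra.Projectivization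

section defs
variable {K : Type} [Field K] {N n : ℕ}

/-- `(D, S)`-integral sets of points: up to constants which are `1` at almost all places, every
`F i` has the maximal possible absolute value at all finite places outside `S`. -/
def IntegralSet [NumberField K] (S : Finset (FinitePlace K))
    (F : Fin (n + 1) → MvPolynomial (Fin (N + 1)) K) (d : Fin (n + 1) → ℕ)
    (T : Set (ℙ K (Fin (N + 1) → K))) : Prop :=
  ∃ c : FinitePlace K → ℝ, (∀ v, 0 < c v) ∧ {v | c v ≠ 1}.Finite ∧
    ∀ Q ∈ T, ∀ i, eval Q.rep (F i) ≠ 0 ∧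
      ∀ v : FinitePlace K, v ∉ S → c v * (⨆ j, v (Q.rep j)) ^ d i ≤ v (eval Q.rep (F i))

/-- Jacobian criterion: the only vectors killed by the differentials at `A` of all forms in `J`
are the multiples of `A`. For a common zero `A ≠ 0` of the forms in `J` this means that the
projective scheme cut out by `J` is reduced at the point `A`, and that `A` is an isolated point
of it. -/
def Reduced (J : Set (MvPolynomial (Fin (N + 1)) K)) (A : Fin (N + 1) → AlgebraicClosure K) :
    Prop :=
  ∀ v : Fin (N + 1) → AlgebraicClosure K, (∀ f ∈ J, ∑ i, aeval A (pderiv i f) * v i = 0) →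
    ∃ c : AlgebraicClosure K, v = c • A

/-- `X` is irreducible over `K`: if the product of two polynomials over `K` vanishes on the cone
over `X` (over the algebraic closure), then one of them does. -/
def IsIrr (J : Set (MvPolynomial (Fin (N + 1)) K)) : Prop :=
  ∀ f g : MvPolynomial (Fin (N + 1)) K,
    (∀ A : Fin (N + 1) → AlgebraicClosure K, (∀ h ∈ J, aeval A h = 0) →
      aeval A f * aeval A g = 0) →
    (∀ A : Fin (N + 1) → AlgebraicClosure K, (∀ h ∈ J, aeval A h = 0) → aeval A f = 0) ∨
      ∀ A : Fin (N + 1) → AlgebraicClosure K, (∀ h ∈ J, aeval A h = 0) → aeval A g = 0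

/-- The forms in `J` have two different common zeros in projective space over the algebraic
closure. -/
def TwoPoints (J : Set (MvPolynomial (Fin (N + 1)) K)) : Prop :=
  ∃ A B : Fin (N + 1) → AlgebraicClosure K, A ≠ 0 ∧ B ≠ 0 ∧ (∀ f ∈ J, aeval A f = 0) ∧
    (∀ f ∈ J, aeval B f = 0) ∧ ∀ c : AlgebraicClosure K, B ≠ c • A

/-- The set of indices `I` is a corner: either `I` is not empty and the scheme
`X ∩ {F i = 0, i ∈ I}` over the algebraic closure is finite and reduced (or empty), or `n = 2`
(three hypersurfaces on a surface), `I` has two elements, `X` is irreducible over `K` and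
`X ∩ {F i = 0, i ∈ I}` has at least two points over the algebraic closure. -/
def IsCorner (J : Set (MvPolynomial (Fin (N + 1)) K))
    (F : Fin (n + 1) → MvPolynomial (Fin (N + 1)) K) (I : Finset (Fin (n + 1))) : Prop :=
  (I.Nonempty ∧ ∀ A : Fin (N + 1) → AlgebraicClosure K, A ≠ 0 →
    (∀ f ∈ J ∪ F '' (I : Set (Fin (n + 1))), aeval A f = 0) →
    Reduced (J ∪ F '' (I : Set (Fin (n + 1)))) A) ∨
  (n = 2 ∧ I.card = 2 ∧ IsIrr J ∧ TwoPoints (J ∪ F '' (I : Set (Fin (n + 1)))))

/-- `z ↦ (Q k (z))` defines a non-constant morphism from the `r`-th power of the multiplicative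
group to `X ∖ D`: its values lie on `X`, the function `F i` is a non-zero constant times a
monomial in the coordinates, and the quotients `F i ^ d j / F j ^ d i` are not all constant. -/
structure IsTorus {r : ℕ} (J : Set (MvPolynomial (Fin (N + 1)) K))
    (F : Fin (n + 1) → MvPolynomial (Fin (N + 1)) K) (d : Fin (n + 1) → ℕ)
    (Q : Fin (N + 1) → MvPolynomial (Fin r) K) (m : Fin (n + 1) → Fin r →₀ ℕ) : Prop where
  onX : ∀ f ∈ J, aeval Q f = 0
  units : ∀ i, ∃ c : K, c ≠ 0 ∧ aeval Q (F i) = monomial (m i) c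
  nonconst : ∃ i j, d j • m i ≠ d i • m j

/-- The point `P` is a value of the morphism given by `Q`. -/
def OnTorus {r : ℕ} (Q : Fin (N + 1) → MvPolynomial (Fin r) K) (P : ℙ K (Fin (N + 1) → K)) :
    Prop :=
  ∃ (μ : K) (z : Fin r → K), μ ≠ 0 ∧ (∀ j, z j ≠ 0) ∧ P.rep = μ • fun k => eval z (Q k)

/-- Sets covered by finitely many points and the images of finitely many non-constant morphisms
from the `n`-th power of the multiplicative group to `X ∖ D`. -/
def Exceptional (J : Set (MvPolynomial (Fin (N + 1)) K))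
    (F : Fin (n + 1) → MvPolynomial (Fin (N + 1)) K) (d : Fin (n + 1) → ℕ)
    (T : Set (ℙ K (Fin (N + 1) → K))) : Prop :=
  ∃ (A : Set (ℙ K (Fin (N + 1) → K)))
    (𝒯 : Set ((Fin (N + 1) → MvPolynomial (Fin n) K) × (Fin (n + 1) → Fin n →₀ ℕ))),
    A.Finite ∧ 𝒯.Finite ∧ (∀ t ∈ 𝒯, IsTorus J F d t.1 t.2) ∧
    ∀ Q ∈ T, Q ∈ A ∨ ∃ t ∈ 𝒯, OnTorus t.1 Q

/-- The absolute value at `v` of the form `f` of degree `e` at the point `x`, divided by the
size of `x` to the power `e`, and with the `e`-th root taken: the exponential of minus the local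
height of `x` with respect to `f = 0`, divided by `e`. -/
noncomputable def prox (v : K → ℝ) (f : MvPolynomial (Fin (N + 1)) K) (e : ℕ)
    (x : Fin (N + 1) → K) : ℝ :=
  (v (eval x f) / (⨆ k, v (x k)) ^ e) ^ ((1 : ℝ) / e)

/-- The distance to the corners at `v`: the minimum of `1` and of the numbers
`max (i ∈ I) prox v (F i)` for the corners `I`. -/
noncomputable def cornerDist (v : K → ℝ) (J : Set (MvPolynomial (Fin (N + 1)) K))
    (F : Fin (n + 1) → MvPolynomial (Fin (N + 1)) K)
    (d : Fin (n + 1) → ℕ) (x : Fin (N + 1) → K) : ℝ :=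
  sInf (insert 1 {t | ∃ I, IsCorner J F I ∧ t = ⨆ i : I, prox v (F i) (d i) x})

/-- The product of the distances to the corners over the infinite places (with multiplicity) and
the places in `S`. -/
noncomputable def cornerProd [NumberField K] (S : Finset (FinitePlace K))
    (J : Set (MvPolynomial (Fin (N + 1)) K)) (F : Fin (n + 1) → MvPolynomial (Fin (N + 1)) K)
    (d : Fin (n + 1) → ℕ) (x : Fin (N + 1) → K) : ℝ :=
  (∏ w : InfinitePlace K, cornerDist w J F d x ^ w.mult) * ∏ v ∈ S, cornerDist v J F d x

/-- The number of the indices `i` in `G` such that `x` is closer than `c` to `F i = 0` at `v`. -/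
noncomputable def nearCount (v : K → ℝ) (F : Fin (n + 1) → MvPolynomial (Fin (N + 1)) K)
    (d : Fin (n + 1) → ℕ) (G : Finset (Fin (n + 1))) (c : ℝ) (x : Fin (N + 1) → K) : ℕ :=
  (G.filter fun i => prox v (F i) (d i) x < c).card

end defs

/-- Let `K` be a number field and `S` a finite set of finite places. Let `X` be a closed subscheme
of projective `N`-space over `K`, cut out by the forms in `J`, and let `F 0, ..., F n` be forms of
degrees `d i ≥ 1` without common zero on `X` over the algebraic closure. Let `D` be the union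
of the hypersurfaces `F i = 0` and `T` a `(D, S)`-integral set of points of `X(K)`. Then
(1) the set of points of `T` whose product of the distances to the corners is at most
`C H(Q) ^ (-ε)` is exceptional: it is contained in the union of a finite set and of the images of
finitely many non-constant morphisms from powers of the multiplicative group to `X ∖ D` over `K`.
(2) Let `G` be a set of indices such that all subsets of `G` with `k + 1` elements are corners,
and `c > 0`. For a point `Q` count, at every infinite place and every place in `S`, the indices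
in `G` for which `Q` is closer than `c` to `F i = 0`, but at most `k` at every place. The set of
the points of `T` for which the sum of these numbers is smaller than the number of elements of `G`
is exceptional. (3) If there is no non-constant morphism from the multiplicative group to
`X ∖ D` over `K`, then exceptional sets are finite. -/
theorem result (K : Type) [Field K] [NumberField K] (S : Finset (FinitePlace K)) (N n : ℕ)
    (J : Set (MvPolynomial (Fin (N + 1)) K)) (hJ : ∀ f ∈ J, ∃ e, f.IsHomogeneous e)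
    (F : Fin (n + 1) → MvPolynomial (Fin (N + 1)) K) (d : Fin (n + 1) → ℕ) (hd : ∀ i, 1 ≤ d i)
    (hF : ∀ i, (F i).IsHomogeneous (d i))
    (hempty : ∀ A : Fin (N + 1) → AlgebraicClosure K, (∀ f ∈ J, aeval A f = 0) →
      (∀ i, aeval A (F i) = 0) → A = 0)
    (T : Set (ℙ K (Fin (N + 1) → K))) (hTX : ∀ Q ∈ T, ∀ f ∈ J, eval Q.rep f = 0)
    (hT : IntegralSet S F d T) :
    (∀ ε C : ℝ, 0 < ε → Exceptional J F d
      {Q | Q ∈ T ∧ cornerProd S J F d Q.rep ≤ C * Height.mulHeight Q.rep ^ (-ε)}) ∧
    (∀ (G : Finset (Fin (n + 1))) (k : ℕ) (c : ℝ), 0 < c →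
      (∀ I : Finset (Fin (n + 1)), I ⊆ G → I.card = k + 1 → IsCorner J F I) →
      Exceptional J F d {Q | Q ∈ T ∧
        (∑ w : InfinitePlace K, min k (nearCount w F d G c Q.rep)) +
          ∑ v ∈ S, min k (nearCount v F d G c Q.rep) < G.card}) ∧
    ((∀ (Q : Fin (N + 1) → MvPolynomial (Fin 1) K) (m : Fin (n + 1) → Fin 1 →₀ ℕ),
      ¬ IsTorus J F d Q m) → ∀ A, Exceptional J F d A → A.Finite) := by
  have hcor : ∀ I, IsCorner J F I ↔
      Pool.Agent.Helper10.TD.IsCornerD (AlgebraicClosure K) J F I := by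
    intro I
    constructor
    · rintro (h | ⟨h1, h2, h3, A, B, hA, hB, hAJ, hBJ, hAB⟩)
      · exact Or.inl ⟨h.1, h.2⟩
      · refine Or.inr ⟨h1, h2, h3, A, B, hA, hB, fun f hf => hAJ f (Or.inl hf),
          fun f hf => hBJ f (Or.inl hf), fun i hi => hAJ _ (Or.inr ⟨i, hi, rfl⟩),
          fun i hi => hBJ _ (Or.inr ⟨i, hi, rfl⟩), hAB⟩
    · rintro (h | ⟨h1, h2, h3, A, B, hA, hB, hAJ, hBJ, hAF, hBF, hAB⟩)
      · exact Or.inl ⟨h.1, h.2⟩
      · refine Or.inr ⟨h1, h2, h3, A, B, hA, hB, ?_, ?_, hAB⟩
        · rintro f (hf | ⟨i, hi, rfl⟩)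
          · exact hAJ f hf
          · exact hAF i hi
        · rintro f (hf | ⟨i, hi, rfl⟩)
          · exact hBJ f hf
          · exact hBF i hi
  have hcd : ∀ (v : K → ℝ) (x : Fin (N + 1) → K), cornerDist v J F d x =
      Pool.Agent.Helper38.TN.cdC
        {I | Pool.Agent.Helper10.TD.IsCornerD (AlgebraicClosure K) J F I} v F d x := by
    intro v x
    unfold cornerDist Pool.Agent.Helper38.TN.cdC
    congr 2
    ext t
    constructor
    · rintro ⟨I, hI, ht⟩
      exact ⟨I, (hcor I).1 hI, ht⟩
    · rintro ⟨I, hI, ht⟩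
      exact ⟨I, (hcor I).2 hI, ht⟩
  have hcp : ∀ x : Fin (N + 1) → K, cornerProd S J F d x =
      Pool.Agent.Helper38.TN.cpC
        {I | Pool.Agent.Helper10.TD.IsCornerD (AlgebraicClosure K) J F I} S F d x := by
    intro x
    unfold cornerProd Pool.Agent.Helper38.TN.cpC
    congr 1
    · exact Finset.prod_congr rfl fun w _ => by rw [hcd]
    · exact Finset.prod_congr rfl fun v _ => by rw [hcd]
  have conv : ∀ A : Set (ℙ K (Fin (N + 1) → K)), Pool.Agent.Helper38.TN.SmallPN J F d A →
      Exceptional J F d A := by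
    rintro A ⟨A₀, 𝒯, hA, h𝒯, h1, h2⟩
    exact ⟨A₀, 𝒯, hA, h𝒯, fun t ht => ⟨(h1 t ht).onX, (h1 t ht).units, (h1 t ht).nonconst⟩, h2⟩
  obtain ⟨h1, h2⟩ := Pool.Agent.Helper10.TD.mainPD S J hJ F d hd hF (Ω := AlgebraicClosure K)
    hempty T hTX hT
  refine ⟨fun ε C hε => ?_, fun G k c hc hG => ?_, ?_⟩
  · have h := conv _ (h1 ε C hε)
    have e : {Q | Q ∈ T ∧ cornerProd S J F d Q.rep ≤ C * Height.mulHeight Q.rep ^ (-ε)} =
        {Q | Q ∈ T ∧ Pool.Agent.Helper38.TN.cpC
          {I | Pool.Agent.Helper10.TD.IsCornerD (AlgebraicClosure K) J F I} S F d Q.rep ≤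
            C * Height.mulHeight Q.rep ^ (-ε)} := by
      ext Q
      simp only [Set.mem_ofPred_eq, hcp]
    rw [e]
    exact h
  · exact conv _ (h2 G k c hc fun I hI hc => (hcor I).1 (hG I hI hc))
  · rintro hno A ⟨A₀, 𝒯, hA, h𝒯, g1, h3⟩
    refine hA.subset fun Q hQ => ?_
    rcases h3 Q hQ with h | ⟨t, ht, -⟩
    · exact h
    · exfalso
      obtain ⟨Q', m', h'⟩ := Pool.Agent.Helper38.TN.torus_one J F d t.1 t.2
        ⟨(g1 t ht).onX, (g1 t ht).units, (g1 t ht).nonconst⟩
      exact hno Q' m' ⟨h'.onX, h'.units, h'.nonconst⟩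

end Pool.Agent.Results.MP_26d9ad_nt.ThreeComponents
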